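import Pool.Agent.Lib.MP_5ab464_nt.H84Final

open Filter

namespace Pool.Agent.Results.MP_5ab464_nt.NotChromatic

theorem result : ∃ R : Set ℕ, 0 ∉ R ∧
    (∀ A : Set ℕ, 0 < limsup (fun N : ℕ => ((A ∩ Set.Icc 1 N).ncard : ℝ) / N) atTop →
      ∃ a ∈ A, ∃ b ∈ A, a < b ∧ b - a ∈ R) ∧
    ∃ (k : ℕ) (col : ℕ → Fin k), ∀ p q : ℕ, p.Prime → q.Prime → p < q → col p = col q →
      q - p ∉ R := by
  obtain ⟨H, h1, k, col, h2⟩ := Pool.Agent.Lib.MP_5ab464_nt.final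
  refine ⟨H \ {0}, by simp, fun A hA => ?_, k, col, fun p q hp hq hpq hc h => h2 p q hp hq hpq hc h.1⟩
  obtain ⟨c, hc, hc'⟩ := exists_between hA
  have h3 := frequently_lt_of_lt_limsup (isCoboundedUnder_le_of_le atTop
    (x := 0) fun N => by positivity) hc'
  obtain ⟨a, ha, b, hb, hab, h⟩ := h1 A ⟨c / 2, by positivity, fun M => by
    obtain ⟨N, hN, h4⟩ := frequently_atTop.1 h3 (M + 1)
    have h5 : (1 : ℝ) ≤ N := by exact_mod_cast (by omega : 1 ≤ N)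
    rw [lt_div_iff₀ (by linarith)] at h4
    have h6 : (A ∩ Set.Icc 1 N).ncard ≤ (A ∩ Set.Iio (N + 1)).ncard :=
      Set.ncard_le_ncard (Set.inter_subset_inter_right _ fun x hx => Nat.lt_succ_of_le hx.2)
        ((Set.finite_Iio _).inter_of_right _)
    have h7 : ((A ∩ Set.Icc 1 N).ncard : ℝ) ≤ (A ∩ Set.Iio (N + 1)).ncard := by exact_mod_cast h6
    refine ⟨N + 1, by omega, ?_⟩
    rw [Nat.card_coe_set_eq]
    push_cast
    nlinarith⟩
  exact ⟨a, ha, b, hb, hab, h, by simp; omega⟩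

end Pool.Agent.Results.MP_5ab464_nt.NotChromatic
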