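import Pool.Agent.Lib.MP_5ab464_nt.Dens

open Finset Filter Pool.Agent.Lib.MP_5ab464_nt

namespace Pool.Agent.Results.MP_5ab464_nt.TwoColours

/-- For every density threshold and every modulus `W` there is a set `H` of multiples of `W` that
meets the difference set of every set of upper density at least the threshold, while the primes
have a two-colouring with no monochromatic difference in `H`. -/
theorem result :
    ∀ δ : ℝ, 0 < δ → ∀ W : ℕ, 0 < W → ∃ H : Set ℕ, (∀ h ∈ H, W ∣ h) ∧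
      (∀ A : Set ℕ,
          (∀ M : ℕ, ∃ N : ℕ, M ≤ N ∧ δ * (N : ℝ) ≤ (Nat.card ↑(A ∩ Set.Iio N) : ℝ)) →
          ∃ a ∈ A, ∃ b ∈ A, a < b ∧ b - a ∈ H) ∧
      ∃ col : ℕ → Fin 2, ∀ p q : ℕ, p.Prime → q.Prime → p < q → col p = col q → q - p ∉ H := by
  classical
  intro δ hδ W hW
  obtain ⟨Q, hQ, hP⟩ := exists_primes (W + 2) (half_pos hδ)
  have : ∀ i : Q, NeZero (i : ℕ) := fun i => ⟨(hQ i i.2).1.ne_zero⟩
  have : ∀ i : Q, Fact (i : ℕ).Prime := fun i => ⟨(hQ i i.2).1⟩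
  have : NeZero W := ⟨hW.ne'⟩
  have h3 : ∀ i : Q, 3 ≤ (i : ℕ) := fun i => by have := (hQ i i.2).2; omega
  have ho : ∀ i : Q, Odd (i : ℕ) := fun i => (hQ i i.2).1.odd_of_ne_two (by have := h3 i; omega)
  have hW' : ∀ i : Q, (W : ZMod i) ≠ 0 := fun i h => by
    have h1 := Nat.le_of_dvd hW ((ZMod.natCast_eq_zero_iff _ _).1 h)
    have := (hQ i i.2).2; omega
  let φ : ℕ → ∀ i : Q, ZMod i := fun n i => (n : ZMod i) * (W : ZMod i)⁻¹
  have hφ : ∀ a b, a ≤ b → φ (b - a) = φ b - φ a := fun a b h => by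
    funext i; simp only [φ, Pi.sub_apply, Nat.cast_sub h]; ring
  have hinj : ∀ a b, φ a = φ b → ∀ i : Q, a ≡ b [MOD i] := fun a b h i =>
    (ZMod.natCast_eq_natCast_iff _ _ _).1 (mul_right_cancel₀ (inv_ne_zero (hW' i)) (congrFun h i))
  refine ⟨{h | W ∣ h ∧ Q.sup id < h ∧ (∀ p ∈ Q, ¬ (p + h).Prime) ∧ OddBox (φ h)},
    fun h hh => hh.1, fun A hA => ?_,
    fun n => ⟨(∑ i, (φ n i).val) % 2, Nat.mod_lt _ two_pos⟩, fun p q hp hq hpq hc hH => ?_⟩
  · simp only [cnt_eq] at hA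
    have hcop : W.Coprime (∏ q ∈ Q, q) := Nat.Coprime.prod_right fun q hq =>
      ((Nat.Prime.coprime_iff_not_dvd (hQ q hq).1).2 fun h => by
        have := Nat.le_of_dvd hW h
        have := (hQ q hq).2; omega).symm
    have h1 := rich_many (m := W * ∏ q ∈ Q, q)
      (Nat.mul_pos hW (prod_pos fun q hq => (hQ q hq).1.pos))
      (fun n => ((n : ZMod W), φ n)) (fun a b h => by
        rw [Prod.mk.injEq] at h
        refine (Nat.modEq_and_modEq_iff_modEq_mul hcop).1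
          ⟨(ZMod.natCast_eq_natCast_iff _ _ _).1 h.1, ?_⟩
        rw [Nat.modEq_iff_dvd, Nat.cast_prod]
        refine Finset.prod_dvd_of_coprime (fun x hx y hy hxy => ?_) fun q hq => ?_
        · exact Nat.isCoprime_iff_coprime.2 ((Nat.coprime_primes (hQ x hx).1 (hQ y hy).1).2 hxy)
        · exact Nat.modEq_iff_dvd.1 (hinj a b h.2 ⟨q, hq⟩)) hδ hA
    set G := univ.filter fun γ : ZMod W × ∀ i : Q, ZMod i =>
      ¬ Null (A ∩ (fun n : ℕ => ((n : ZMod W), φ n)) ⁻¹' {γ}) with hG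
    have h2 : (univ : Finset (ZMod W)).card * ∏ i : Q, ((i : ℕ) - 1) < G.card := by
      rw [card_univ, ZMod.card, prod_coe_sort Q fun q => q - 1]
      have e : ((∏ q ∈ Q, (q - 1) : ℕ) : ℝ) = ∏ q ∈ Q, ((q : ℝ) - 1) := by
        rw [Nat.cast_prod]
        exact prod_congr rfl fun q hq => by rw [Nat.cast_sub (hQ q hq).1.one_lt.le, Nat.cast_one]
      have : ((W * ∏ q ∈ Q, (q - 1) : ℕ) : ℝ) < G.card := by
        refine lt_of_le_of_lt ?_ h1
        push_cast [e]
        have : (0 : ℝ) ≤ W := by positivity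
        nlinarith
      exact_mod_cast this
    obtain ⟨w, -, hw⟩ := exists_lt_card_fiber_of_mul_lt_card_of_maps_to
      (f := Prod.fst) (fun a _ => mem_univ _) h2
    rw [← card_image_of_injOn (f := Prod.snd) (fun x hx y hy h => Prod.ext
      ((mem_filter.1 hx).2.trans (mem_filter.1 hy).2.symm) h)] at hw
    obtain ⟨x', hx', y', hy', hxy⟩ : ∃ x ∈ (G.filter fun a => a.1 = w).image Prod.snd,
        ∃ y ∈ (G.filter fun a => a.1 = w).image Prod.snd, OddBox (y - x) := by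
      by_contra! h
      exact absurd (box_bound ho h3 _ h) (not_le.2 hw)
    obtain ⟨⟨w1, x⟩, hx, rfl⟩ := mem_image.1 hx'
    obtain ⟨⟨w2, y⟩, hy, rfl⟩ := mem_image.1 hy'
    clear hx' hy'
    simp only [hG, mem_filter, mem_univ, true_and] at hx hy
    obtain ⟨hx, rfl⟩ := hx
    obtain ⟨hy, rfl⟩ := hy
    obtain ⟨a, ha, ha'⟩ : (A ∩ (fun n : ℕ => ((n : ZMod W), φ n)) ⁻¹' {(w2, x)}).Nonempty := by
      by_contra h
      rw [Set.not_nonempty_iff_eq_empty] at h
      exact hx ((null_Iic 0).mono (by simp [h]))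
    obtain ⟨b, ⟨hb, hb'⟩, hb2⟩ := Set.not_subset.1 fun h => hy (((null_Iic (a + Q.sup id)).union
      (null_biUnion Q (fun p => {b | (p + (b - a)).Prime}) fun p _ => null_primes a p)).mono h)
    simp only [Set.mem_preimage, Set.mem_singleton_iff, Prod.mk.injEq, Set.mem_union, Set.mem_Iic,
      Set.mem_iUnion, Set.mem_ofPred_eq, not_or, not_le, not_exists] at ha' hb' hb2
    have hab : a < b := by omega
    refine ⟨a, ha, b, hb, hab, ?_, by omega, hb2.2, ?_⟩
    · exact (Nat.modEq_iff_dvd' hab.le).1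
        ((ZMod.natCast_eq_natCast_iff _ _ _).1 (ha'.1.trans hb'.1.symm))
    · rw [hφ a b hab.le, ha'.2, hb'.2]; exact hxy
  · obtain ⟨-, h1, h2, h4⟩ := hH
    have hpQ : p ∉ Q := fun h => h2 p h (by rwa [Nat.add_sub_cancel' hpq.le])
    have hqQ : q ∉ Q := fun h => by
      have : q ≤ Q.sup id := le_sup (f := id) h
      omega
    have unit : ∀ n : ℕ, n.Prime → n ∉ Q → ∀ i, φ n i ≠ 0 := fun n hn hnQ i =>
      mul_ne_zero (fun h => hnQ (by
        rw [← (Nat.prime_dvd_prime_iff_eq (hQ i i.2).1 hn).1 ((ZMod.natCast_eq_zero_iff _ _).1 h)]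
        exact i.2)) (inv_ne_zero (hW' i))
    rw [hφ p q hpq.le] at h4
    exact parity_flip h3 (unit p hp hpQ) (unit q hq hqQ) h4 (congrArg Fin.val hc)

end Pool.Agent.Results.MP_5ab464_nt.TwoColours
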